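import Pool.Agent.Helper67.NX2.DefsB
import Pool.Agent.Helper69.EK.Selberg
import Pool.Agent.Helper44.MertensProd

/-! Sums over squarefree rough numbers and the ratio `M / φ(M)` for smooth `M` (NX2-B3). -/

set_option autoImplicit false

open Finset

namespace Pool.Agent.Helper67.NX2

theorem totient_ratio : ∃ C : ℝ, 0 < C ∧ ∀ M R : ℕ, 1 ≤ M → 2 ≤ R →
    (∀ p : ℕ, p.Prime → p ∣ M → p ≤ R) → (M : ℝ) / M.totient ≤ C * Real.log R := by
  obtain ⟨c, C', hc, -, hM⟩ := Pool.Agent.Helper44.mertens_prod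
  refine ⟨1 / c, by positivity, ?_⟩
  intro M R hM1 hR2 hMR
  have hR2' : (2 : ℝ) ≤ R := by exact_mod_cast hR2
  have hlog : 0 < Real.log R := Real.log_pos (by linarith)
  have h1 := (hM R hR2').1
  -- the totient
  have hM0 : (0 : ℝ) < M := by exact_mod_cast hM1
  have htot : (M.totient : ℝ) = M * ∏ p ∈ M.primeFactors, (1 - (1 : ℝ) / p) := by
    have h := Nat.totient_eq_mul_prod_factors M
    have h' : ((M.totient : ℚ) : ℝ) = ((M * ∏ p ∈ M.primeFactors, (1 - (p : ℚ)⁻¹) : ℚ) : ℝ) := by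
      rw [h]
    push_cast at h'
    rw [h']
    congr 1
    apply Finset.prod_congr rfl
    intro p _
    rw [one_div]
  have hsub : M.primeFactors ⊆ Pool.Agent.Helper44.primesUpTo (R : ℝ) := by
    intro p hp
    rw [Pool.Agent.Helper44.mem_primesUpTo (by positivity)]
    have hpp := Nat.prime_of_mem_primeFactors hp
    refine ⟨hpp, ?_⟩
    exact_mod_cast hMR p hpp (Nat.dvd_of_mem_primeFactors hp)
  have hfac : ∀ p : ℕ, p.Prime → 0 < 1 - (1 : ℝ) / p ∧ 1 - (1 : ℝ) / p ≤ 1 := by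
    intro p hp
    have h2 : (2 : ℝ) ≤ p := by exact_mod_cast hp.two_le
    have h3 : (1 : ℝ) / p ≤ 1 / 2 := one_div_le_one_div_of_le (by norm_num) h2
    have h4 : 0 ≤ (1 : ℝ) / p := by positivity
    constructor <;> linarith
  have hle : ∏ q ∈ Pool.Agent.Helper44.primesUpTo (R : ℝ), (1 - (1 : ℝ) / q) ≤
      ∏ p ∈ M.primeFactors, (1 - (1 : ℝ) / p) := by
    rw [← Finset.prod_sdiff hsub]
    have hA : ∏ q ∈ Pool.Agent.Helper44.primesUpTo (R : ℝ) \ M.primeFactors, (1 - (1 : ℝ) / q) ≤ 1 := by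
      apply Finset.prod_le_one
      · intro q hq
        rw [Finset.mem_sdiff, Pool.Agent.Helper44.mem_primesUpTo (by positivity)] at hq
        exact (hfac q hq.1.1).1.le
      · intro q hq
        rw [Finset.mem_sdiff, Pool.Agent.Helper44.mem_primesUpTo (by positivity)] at hq
        exact (hfac q hq.1.1).2
    have hB : 0 ≤ ∏ p ∈ M.primeFactors, (1 - (1 : ℝ) / p) :=
      Finset.prod_nonneg fun p hp => (hfac p (Nat.prime_of_mem_primeFactors hp)).1.le
    exact mul_le_of_le_one_left hB hA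
  have hpos : 0 < ∏ p ∈ M.primeFactors, (1 - (1 : ℝ) / p) :=
    Finset.prod_pos fun p hp => (hfac p (Nat.prime_of_mem_primeFactors hp)).1
  have hge : c / Real.log R ≤ ∏ p ∈ M.primeFactors, (1 - (1 : ℝ) / p) := h1.trans hle
  rw [htot, div_mul_eq_div_div, div_self hM0.ne', one_div_mul_eq_div]
  calc 1 / ∏ p ∈ M.primeFactors, (1 - (1 : ℝ) / p) ≤ 1 / (c / Real.log R) :=
        one_div_le_one_div_of_le (by positivity) hge
    _ = Real.log R / c := by rw [one_div_div]

theorem rough_sum : ∃ c : ℝ, 0 < c ∧ ∀ R Y : ℕ, 2 ≤ R → 2 ≤ Y →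
    c * Real.log Y / Real.log R ≤
      ∑ r ∈ (Icc 1 Y).filter (fun r => Squarefree r ∧ ∀ p ∈ r.primeFactors, R < p),
        (1 : ℝ) / r.totient := by
  obtain ⟨C, hC, hM⟩ := totient_ratio
  refine ⟨1 / C, by positivity, ?_⟩
  intro R Y hR hY
  have hR2' : (2 : ℝ) ≤ R := by exact_mod_cast hR
  have hlog : 0 < Real.log R := Real.log_pos (by linarith)
  set D := primorial R with hD
  have hDpos : 0 < D := primorial_pos R
  have h1 := hM D R hDpos hR (fun p hp hpd => hp.dvd_primorial_iff.1 hpd)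
  have h2 := Pool.Agent.Helper69.EK.GG_lower D Y hDpos
  have hset : Pool.Agent.Helper69.EK.AA D Y =
      (Icc 1 Y).filter (fun r => Squarefree r ∧ ∀ p ∈ r.primeFactors, R < p) := by
    ext l
    rw [Pool.Agent.Helper69.EK.mem_AA, Finset.mem_filter, Finset.mem_Icc]
    constructor
    · rintro ⟨hl, hsq, hco⟩
      refine ⟨hl, hsq, ?_⟩
      intro p hp
      by_contra hle
      push Not at hle
      have hpp := Nat.prime_of_mem_primeFactors hp
      have hpD : p ∣ D := hpp.dvd_primorial_iff.2 hle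
      have hpl : p ∣ l := Nat.dvd_of_mem_primeFactors hp
      have := Nat.dvd_gcd hpl hpD
      rw [hco] at this
      exact hpp.one_lt.ne' (Nat.dvd_one.1 this)
    · rintro ⟨hl, hsq, hp⟩
      refine ⟨hl, hsq, ?_⟩
      apply Nat.coprime_of_dvd
      intro p hpp hpl hpD
      have h3 : p ≤ R := hpp.dvd_primorial_iff.1 hpD
      have h4 := hp p (Nat.mem_primeFactors.2 ⟨hpp, hpl, by omega⟩)
      omega
  rw [Pool.Agent.Helper69.EK.GG, hset] at h2
  set S := ∑ r ∈ (Icc 1 Y).filter (fun r => Squarefree r ∧ ∀ p ∈ r.primeFactors, R < p),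
        (1 : ℝ) / r.totient with hS
  have hS0 : 0 ≤ S := Finset.sum_nonneg fun _ _ => by positivity
  have h3 : Real.log Y ≤ C * Real.log R * S := h2.trans (mul_le_mul_of_nonneg_right h1 hS0)
  rw [div_le_iff₀ hlog, one_div_mul_eq_div, div_le_iff₀ hC]
  linarith

end Pool.Agent.Helper67.NX2
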