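import Pool.Agent.Helper67.NX2.Defs

/-!
Project NX2 (MP_cb2931_nt), module A16: assembly of the base, hypothesis form.
-/

set_option autoImplicit false

open Finset
open scoped BigOperators ComplexConjugate

namespace Pool.Agent.Helper67.NX2

open Pool.Agent.Helper57.NX

noncomputable section

/-- the statement of `IG.mono` -/
def A16Mono (m : ℕ) (c : Fin (m + 1) → ℝ) : Prop :=
  ∀ {S : Sys (m + 1)} {N : ℕ} {x x' : ℝ} {lam : ℕ},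
    IG S c N x lam → x ≤ x' → 1 ≤ S.D → IG S c N x' lam

/-- the statement of `base_cells'` for `m, c` -/
def A16Cells (m : ℕ) (c : Fin (m + 1) → ℝ) : Prop :=
  ∀ s : ℝ, 0 < s → s < c (Fin.last m) → (∀ i : Fin m, c i.castSucc < s) → ∀ ε : ℝ, 0 < ε →
    ∃ x0 : ℝ, 0 < x0 ∧ ∃ C : ℕ, ∃ σ : ℝ, 0 < σ ∧ ∃ D0 : ℝ,
    ∀ (S : Sys (m + 1)) (N : ℕ) [NeZero N] (lam : ℕ), D0 ≤ S.D → IG S c N x0 lam →
    ∀ δ : ℝ, S.D ^ (-σ) ≤ δ → δ ≤ 1 / 2 → (lam : ℝ) ≤ δ⁻¹ →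
    ∀ X : ℝ, (S.Q : ℝ) ≤ X → S.Q * S.D ^ (s - σ) ≤ X →
    ∀ (f0 : ZMod N → ℂ) (f : Fin (m + 1) → ZMod N → ℂ),
    Adm δ⁻¹ S.Q f0 → (∀ i, Adm δ⁻¹ S.Q (f i)) → Adm δ⁻¹ X (f (Fin.last m)) →
    δ ≤ ‖form S c 1 f0 f‖ →
    ∃ q : ℕ, 1 ≤ q ∧ (q : ℝ) ≤ δ⁻¹ ^ C ∧
    ∃ (θ : ZMod N → Fin m → ℝ) (E : Finset (ZMod N)), (∀ x i, |θ x i| ≤ δ⁻¹ ^ C / S.Q) ∧
      ∀ K : ℕ, 1 ≤ K → (K : ℝ) ≤ S.D ^ (1 - ε) →
        δ ^ C ≤ 𝔼 x, (if x ∈ E then locCorrq S c q (f (Fin.last m)) θ K x else 0)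

/-- the statement of `base_ratl` for `m, c` -/
def A16Ratl (m : ℕ) (c : Fin (m + 1) → ℝ) : Prop :=
    ∃ eb : ℝ, 0 < eb ∧ ∀ (n : ℕ) (ε : ℝ), 0 < ε → ε ≤ eb →
    ∃ x0 : ℝ, 0 < x0 ∧ ∃ C : ℕ, ∃ σ : ℝ, 0 < σ ∧ ∃ D0 : ℝ,
    ∀ (S : Sys (m + 1)) (N : ℕ) [NeZero N] (lam : ℕ), D0 ≤ S.D → IG S c N x0 lam →
    ∀ δ : ℝ, S.D ^ (-σ) ≤ δ → δ ≤ 1 / 2 → (lam : ℝ) ≤ δ⁻¹ →
    ∀ X : ℝ, S.Q * S.D ^ (c (Fin.last m) - 2 * eb) ≤ X →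
    ∀ f : ZMod N → ℂ, Adm δ⁻¹ X f → ∀ q : ℕ, 1 ≤ q → (q : ℝ) ≤ δ⁻¹ ^ n →
    ∀ (θ : ZMod N → Fin m → ℝ) (E : Finset (ZMod N)), (∀ x i, |θ x i| ≤ δ⁻¹ ^ n / S.Q) →
    ∀ K : ℕ, S.D ^ (1 - ε) ≤ (K : ℝ) + 1 → (K : ℝ) ≤ S.D ^ (1 - ε) →
    δ ^ n ≤ 𝔼 x, (if x ∈ E then locCorrq S c q f θ K x else 0) →
    ∃ q2 : ℕ, 1 ≤ q2 ∧ (q2 : ℝ) ≤ δ⁻¹ ^ C ∧
    ∃ (θ2 : ZMod N → Fin m → ℝ) (E2 : Finset (ZMod N)),
      (∀ x ∈ E2, ∀ i, |θ2 x i * S.P i.castSucc| ≤ S.D ^ (1 / 4 : ℝ)) ∧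
      ∀ K2 : ℕ, 1 ≤ K2 → (K2 : ℝ) ≤ S.D ^ (1 - 2 * ε) →
        δ ^ C ≤ 𝔼 x, (if x ∈ E2 then locCorrq S c q2 f θ2 K2 x else 0)

/-- the statement of `base_fin` for `m, c` -/
def A16Fin (m : ℕ) (c : Fin (m + 1) → ℝ) : Prop :=
  ∀ ε : ℝ, 0 < ε → ∃ ε1 : ℝ, 0 < ε1 ∧ ∀ n : ℕ,
    ∃ x0 : ℝ, 0 < x0 ∧ ∃ C : ℕ, ∃ σ : ℝ, 0 < σ ∧ ∃ D0 : ℝ,
    ∀ (S : Sys (m + 1)) (N : ℕ) [NeZero N] (lam : ℕ), D0 ≤ S.D → IG S c N x0 lam →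
    ∀ δ : ℝ, S.D ^ (-σ) ≤ δ → δ ≤ 1 / 2 → (lam : ℝ) ≤ δ⁻¹ →
    ∀ X : ℝ, S.Q * S.D ^ (c (Fin.last m) - 1 / 8) ≤ X →
    ∀ f : ZMod N → ℂ, Adm δ⁻¹ X f → ∀ q : ℕ, 1 ≤ q → (q : ℝ) ≤ δ⁻¹ ^ n →
    ∀ (θ : ZMod N → Fin m → ℝ) (E : Finset (ZMod N)),
    (∀ x ∈ E, ∀ i, |θ x i * S.P i.castSucc| ≤ S.D ^ (1 / 4 : ℝ)) →
    (∀ K : ℕ, 1 ≤ K → (K : ℝ) ≤ S.D ^ (1 - ε1) →
      δ ^ n ≤ 𝔼 x, (if x ∈ E then locCorrq S c q f θ K x else 0)) →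
    ∀ L : ℕ, 1 ≤ L → (L : ℝ) ≤ S.P (Fin.last m) * S.D ^ (-ε) → δ ^ C ≤ nrm (A L f)

theorem base'_of (m : ℕ) (c : Fin (m + 1) → ℝ) (hc : Ex c) (hM : A16Mono m c)
    (h1 : A16Cells m c) (h2 : A16Ratl m c) (h3 : A16Fin m c) :
    ∃ sb : ℝ, c (Fin.last m) - 1 / 8 ≤ sb ∧ sb < c (Fin.last m) ∧
      ∀ ε : ℝ, 0 < ε → TopPm m c sb ε := by
  obtain ⟨eb, heb, h2⟩ := h2
  have hg0 : 0 < min eb (1 / 16) := lt_min heb (by norm_num)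
  have hg1 : min eb (1 / 16) ≤ eb := min_le_left _ _
  have hg2 : min eb (1 / 16) ≤ 1 / 16 := min_le_right _ _
  set g : ℝ := min eb (1 / 16) with hg
  have htwo := hc.two (Fin.last m)
  refine ⟨c (Fin.last m) - g, by linarith, by linarith, fun ε hε => ?_⟩
  obtain ⟨ε1, hε1, h3⟩ := h3 ε hε
  set ε' : ℝ := min eb (min (ε1 / 2) (1 / 2)) with hε'
  have e0 : 0 < ε' := lt_min heb (lt_min (by linarith) (by norm_num))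
  have e1 : ε' ≤ eb := min_le_left _ _
  have e2 : 2 * ε' ≤ ε1 := by
    have : ε' ≤ ε1 / 2 := (min_le_right _ _).trans (min_le_left _ _)
    linarith
  have e3 : ε' ≤ 1 / 2 := (min_le_right _ _).trans (min_le_right _ _)
  obtain ⟨xa, hxa, Ca, σa, hσa, Da, ha⟩ := h1 (c (Fin.last m) - g) (by linarith) (by linarith)
    (fun i => by
      have := hc.gap i.castSucc (Fin.last m) (Fin.castSucc_lt_last i)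
      linarith) ε' e0
  obtain ⟨xb, hxb, Cb, σb, hσb, Db, hb⟩ := h2 Ca ε' e0 e1
  obtain ⟨xc, hxc, Cc, σc, hσc, Dc, hcc⟩ := h3 Cb
  refine ⟨min xa (min xb xc), lt_min hxa (lt_min hxb hxc), Cc,
    min (min σa σb) (min σc (min eb (1 / 16))), lt_min (lt_min hσa hσb) (lt_min hσc hg0),
    max (max Da Db) (max Dc 1), ?_⟩
  intro S N _ lam hD hS δ hδ hδ1 hlam X hX hX1 f0 f hf0 hf hfl hform L hL hL1
  set σ : ℝ := min (min σa σb) (min σc (min eb (1 / 16))) with hσ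
  have sa : σ ≤ σa := (min_le_left _ _).trans (min_le_left _ _)
  have sb : σ ≤ σb := (min_le_left _ _).trans (min_le_right _ _)
  have sc : σ ≤ σc := (min_le_right _ _).trans (min_le_left _ _)
  have sg : σ ≤ g := (min_le_right _ _).trans (min_le_right _ _)
  have dA : Da ≤ S.D := ((le_max_left _ _).trans (le_max_left _ _)).trans hD
  have dB : Db ≤ S.D := ((le_max_right _ _).trans (le_max_left _ _)).trans hD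
  have dC : Dc ≤ S.D := ((le_max_left _ _).trans (le_max_right _ _)).trans hD
  have d1 : 1 ≤ S.D := ((le_max_right _ _).trans (le_max_right _ _)).trans hD
  have hQ : (0 : ℝ) ≤ S.Q := Nat.cast_nonneg _
  have pw : ∀ {a b : ℝ}, a ≤ b → S.D ^ a ≤ S.D ^ b := fun h => Real.rpow_le_rpow_of_exponent_le d1 h
  obtain ⟨q, hq1, hq2, θ, E, hθ, hE⟩ := ha S N lam dA (hM hS (min_le_left _ _) d1) δ
    ((pw (by linarith)).trans hδ) hδ1 hlam X hX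
    ((mul_le_mul_of_nonneg_left (pw (by linarith)) hQ).trans hX1) f0 f hf0 hf hfl hform
  -- the window length
  have hDpos : 0 < S.D := by linarith
  have hw : 1 ≤ S.D ^ (1 - ε') := Real.one_le_rpow d1 (by linarith)
  have hK1 : 1 ≤ ⌊S.D ^ (1 - ε')⌋₊ := by
    rw [Nat.one_le_floor_iff]
    exact hw
  have hK2 : ((⌊S.D ^ (1 - ε')⌋₊ : ℕ) : ℝ) ≤ S.D ^ (1 - ε') :=
    Nat.floor_le (by linarith)
  have hK3 : S.D ^ (1 - ε') ≤ ((⌊S.D ^ (1 - ε')⌋₊ : ℕ) : ℝ) + 1 :=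
    (Nat.lt_floor_add_one _).le
  obtain ⟨q2, hq21, hq22, θ2, E2, hθ2, hE2⟩ := hb S N lam dB
    (hM hS ((min_le_right _ _).trans (min_le_left _ _)) d1) δ
    ((pw (by linarith)).trans hδ) hδ1 hlam X
    ((mul_le_mul_of_nonneg_left (pw (by linarith)) hQ).trans hX1) (f (Fin.last m)) hfl q hq1 hq2
    θ E hθ _ hK3 hK2 (hE _ hK1 hK2)
  exact hcc S N lam dC (hM hS ((min_le_right _ _).trans (min_le_right _ _)) d1) δ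
    ((pw (by linarith)).trans hδ) hδ1 hlam X
    ((mul_le_mul_of_nonneg_left (pw (by linarith)) hQ).trans hX1) (f (Fin.last m)) hfl q2 hq21
    hq22 θ2 E2 hθ2 (fun K hK hK' => hE2 K hK (hK'.trans (pw (by linarith)))) L hL hL1

end

end Pool.Agent.Helper67.NX2
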