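import Pool.Agent.Helper84.NX2.BaseOf
import Pool.Agent.Helper40.NX2.IGBasic
import Pool.Agent.Helper41.NX2.BaseCells
import Pool.Agent.Helper59.NX2.BaseRatl
import Pool.Agent.Helper8.NX2.BaseFin

/-!
Project NX2 (MP_cb2931_nt), module A16: assembly of the base.
-/

set_option autoImplicit false

open Finset
open scoped BigOperators ComplexConjugate

namespace Pool.Agent.Helper67.NX2

open Pool.Agent.Helper57.NX

noncomputable section

theorem base' (hES : ES0) (m : ℕ) (c : Fin (m + 1) → ℝ) (hc : Ex c)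
    (hD : ∀ ε : ℝ, 0 < ε → DPm m (fun i => c i.castSucc) ε) :
    ∃ sb : ℝ, c (Fin.last m) - 1 / 8 ≤ sb ∧ sb < c (Fin.last m) ∧
      ∀ ε : ℝ, 0 < ε → TopPm m c sb ε :=
  base'_of m c hc (fun h hx hD => h.mono hx hD)
    (fun s h0 hs hs1 => base_cells' m c hc s h0 hs hs1 hD) (base_ratl hES m c hc)
    (fun ε hε => base_fin hES m c hc ε hε)

end

end Pool.Agent.Helper67.NX2
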